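import Pool.Agent.N144.DV.AVD

set_option autoImplicit false

/-!
# Period torsors of the motives of abelian varieties with multiplication by a division algebra of prime
# degree over an imaginary quadratic field

Let `p` be a prime number and let `A` be an abelian variety over `ℚ̄` of dimension `p ^ 2` such that
`End(A) ⊗ ℚ` is a noncommutative division algebra of dimension `2 p ^ 2` over `ℚ` whose centre contains
an imaginary quadratic field `E` (`IsDivisionType`). So `D = End(A) ⊗ ℚ` is a division algebra of degree
`p` over `E`, and `H_1(A, ℚ)` is a space of dimension one over `D`. These are the simple abelian varieties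
of PEL type over the compact Shimura varieties of the unitary groups `U(r, s)`, `r + s = p`, given by
division algebras of degree `p` over `E` with involution (Kottwitz, Clozel, Harris and Taylor), for
example over the compact quotients of the complex ball of dimension two given by division algebras of
degree three (here `A` has dimension nine); Mumford's fake projective plane is related to one of them.
The Mumford-Tate domain has dimension `r s`. (If `A` is simple and `D` acts on `A` then `D` is the whole
algebra `End(A) ⊗ ℚ`, since `H_1(A, ℚ)` has dimension one over `D`. By a theorem of Shimura this is the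
case for the general point if `p ≥ 3` and `r s ≠ 0`.)

Let `M` be any André motive over `ℚ̄` in the tensor category generated by `h^1(A)` and the Tate motives.
Let `P` be the matrix of the periods of `M`, and let `G ⊆ GL(H_B(M))` be *any* algebraic group over `ℚ`
such that the comparison isomorphism of `M` is a point of a torsor of `G` defined over `ℚ̄`:
`P T ∈ G(ℂ)` for some matrix `T` with algebraic entries. By the theorems of Deligne and André the motivic
Galois group of `M` is its Mumford-Tate group `MT(M)`, and `P` is a point of a torsor of `MT(M)`. The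
conjecture of Grothendieck says that `P` is a generic point of this torsor (`MT(M)` is connected); in
particular every such `G` contains `MT(M)`.

**Theorem.**

1. `G` contains the derived group of `MT(M)`: for all elements `Z` of the derived algebra of the Lie
   algebra of the Hodge group of `M`, and all complex numbers `t`, the matrix `exp (t Z)` is in `G`.
2. If the centre of the Lie algebra of the Hodge group (which is contained in `E`) acts trivially on
   `M`, then `G` contains `MT(M)`. This is the case for example for `M = h^1(A) ⊗_E h^1(A)^∨`, for the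
   adjoint motive, and for all motives in the tensor category on which the elements of norm one of `E`
   act trivially.

The group `G` is not assumed to be reductive, and nothing is assumed about `A` apart from its
endomorphisms. In the second part the statement for all `G` is equivalent
to: all de Rham-Betti classes in the tensor constructions of `M` are Hodge classes.

## Motives

As `h^1(A)` is dual to `h^1(A)(1)`, the motive `M` is a direct factor of a sum of motives
`h^1(A) ^ {⊗ r i} (w i)`. Its Betti realization is a space of families of multilinear forms with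
rational values, in `r i` variables in `H_1(A, ℚ)`, with a basis `B`. It is the image of a motivated
projector, and the realizations of motivated classes are Hodge classes and de Rham-Betti classes; so
it is stable under the Lie algebra `𝔤` of the endomorphisms of `H_1(A, ℚ)` which annihilate all
classes that are Hodge classes and de Rham-Betti classes (`InLie`), and under the weights. The de Rham
realization has a basis which consists of combinations of products of elements of `H^1_dR(A / ℚ̄)`
with algebraic coefficients. The matrix `P` of the periods expresses it in terms of the basis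
`(2 π i) ^ (w i) B` of the Betti realization (`IsMotive`). By the theorem of Deligne `𝔤` is the Lie
algebra of the Hodge group of `A`, and its image in the endomorphisms of `M` is the Lie algebra of
the Hodge group of `M`.

Nothing is assumed about periods: `AbVar` is the description of an abelian variety over `ℚ̄` by theta
functions (see `Pool/Agent/Y102/AVDefs.lean`, where it is explained why every abelian variety has it),
and the transcendence theorems which are used, the theorem of Schneider and Lang and the
transcendence of `π`, are proved in this repository.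

## Proof

Let `L` be the Lie algebra of `G`, `ρ` the action of `𝔤` on `M`, and let `𝔮` be the set of the `X` in
`𝔤` such that `ρ(X)` is in `L` up to a multiple of the weight operator. By the theorem of Schneider and
Lang `𝔮` acts semisimply on `H_1(A, ℚ)`, with the same commutant as `𝔤`
(`Pool.Agent.N208.AM.qM_full`, of helper208), that is, with the commutant `D`. The new ingredient is a
theorem on division algebras (`Pool.Agent.N144.DV.comm_mem`):

*Let `B` be a division algebra of prime degree `p` over a field `E` of characteristic zero, and let `𝔨`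
be an `E`-subspace of `B` which is closed under commutators. If `𝔨` is not commutative, then `𝔨`
contains `[B, B]`.*

We apply it to the division algebra `B` of the endomorphisms of `H_1(A, ℚ)` which commute with `D`, and
to `𝔨 = E 𝔮`. If `𝔮` were commutative, it would be contained in its commutant `D`, so its commutant `D`
would contain `B`, and `B` would be equal to `D` and commutative, as `B` and `D` have the same dimension.
So the commutators of the elements `X`, `Y` of `𝔤` are in `E 𝔮 = 𝔮 + J 𝔮`, where `J ^ 2 = - c` generates
`E`. Since `𝔤` is skew-symmetric for the polarization, and `J` is skew-symmetric by the positivity of the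
Rosati involution, so that `J 𝔮` consists of symmetric elements, `[X, Y]` is in `𝔮`. From this the theorem
follows as in the work of helper208.

For the proof of the theorem on division algebras, let `x` and `y` be elements of `𝔨` which do not
commute. The minimal polynomial of `x` over `E` has degree `p`, and the differences of its roots are all
different (`Pool.Agent.N144.DV.diff_inj`): some automorphism permutes the roots cyclically, and the
only linear relations over `ℚ` between the powers of an element of order `p`, applied to a vector which is
not fixed, are given by multiples of the cyclotomic polynomial. So for the field `F = E(x)` the kernel `I`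
of the multiplication `F ⊗ F → F` consists of polynomials in `x ⊗ 1 - 1 ⊗ x` without constant term, and
`I 𝔨` is contained in `𝔨`, since `x ⊗ 1 - 1 ⊗ x` acts as the commutator with `x`. Now `𝔪 = I 𝔨` is
stable under the multiplication by elements of `F` on both sides, and one computes that `F + 𝔪` is closed
under the multiplication. So it is a division subalgebra which is larger than `F`, and it is equal to `B`.
-/

open Module Matrix Pool.Agent.Y102 Pool.Agent.W516.DR Pool.Agent.H204R3.GP

noncomputable section

namespace Pool.Agent.Results.MP_caab05_ag.DivisionAlgebraPeriods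

variable {g : ℕ} (A : AbVar g)

/-! ### Endomorphisms -/

/-- `P` is an endomorphism of `A` (up to isogeny), in terms of its action on `H_1(A, ℚ)`: it respects
the de Rham structure. (By the theorem of Bost, which is proved in `Pool.Agent.Y102.AbVar.hodge_end`,
these are the elements of `End(A) ⊗ ℚ`.) -/
def IsEndo (P : Module.End ℚ A.H1) : Prop := IsDeRhamBettiEnd QBar A.dR P

/-- The algebra `End(A) ⊗ ℚ`, as a vector space. -/
def endos : Submodule ℚ (Module.End ℚ A.H1) := Submodule.span ℚ {P | IsEndo A P}

/-- `End(A) ⊗ ℚ` is a noncommutative division algebra of dimension `2 dim A = 2 p ^ 2`, `p` a prime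
number, and its centre contains an imaginary quadratic field. -/
structure IsDivisionType (p : ℕ) : Prop where
  /-- the degree -/
  prime : p.Prime
  /-- the dimension of the abelian variety -/
  dim : g = p ^ 2
  /-- every nonzero endomorphism is an isogeny -/
  simple : ∀ P, IsEndo A P → P ≠ 0 → Function.Injective P
  /-- the dimension of the algebra -/
  rank : finrank ℚ (endos A) = 2 * p ^ 2
  /-- the algebra is not commutative -/
  noncomm : ∃ P Q, IsEndo A P ∧ IsEndo A Q ∧ P * Q ≠ Q * P
  /-- the centre contains an imaginary quadratic field -/
  quadratic : ∃ J, IsEndo A J ∧ (∀ P, IsEndo A P → P * J = J * P) ∧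
    ∃ c : ℚ, 0 < c ∧ ∀ v, J (J v) = -(c • v)

/-! ### The Lie algebra -/

/-- The multilinear forms in `2m` variables in the rational homology. -/
abbrev Form (m : ℕ) : Type := MultilinearMap ℚ (fun _ : Fin m × Fin 2 => A.H1) ℚ

/-- `φ` is a de Rham-Betti class in `H^1(A) ^ {⊗ 2m} (m)`. -/
def IsDRB {m : ℕ} (φ : Form A m) : Prop :=
  IsDeRhamBettiForm QBar A.dR (2 * Real.pi * Complex.I) m φ

/-- `φ` is a Hodge class in `H^1(A) ^ {⊗ 2m} (m)`. -/
def IsHodge {m : ℕ} (φ : Form A m) : Prop := IsHodgeTensor (A.per : A.H1 →+ (Fin g → ℂ)) φ

/-- The endomorphism `X` annihilates the form `φ` (as a derivation). -/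
def Annihilates {m : ℕ} (X : Module.End ℚ A.H1) (φ : Form A m) : Prop :=
  ∀ v, ∑ k, φ (Function.update v k (X (v k))) = 0

/-- `X` is in the Lie algebra `𝔤`: it annihilates all classes that are Hodge classes and
de Rham-Betti classes. -/
def InLie (X : Module.End ℚ A.H1) : Prop :=
  ∀ (m : ℕ) (φ : Form A m), IsHodge A φ → IsDRB A φ → Annihilates A X φ

/-! ### Motives -/

variable {s n : ℕ} (r : Fin s → ℕ) (w : Fin s → ℤ)

/-- The Betti realization of the sum of the motives `h^1(A) ^ {⊗ r i} (w i)`: families of multilinear
forms in `r i` variables in the rational homology. -/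
abbrev Tensors : Type := ∀ i : Fin s, MultilinearMap ℚ (fun _ : Fin (r i) => A.H1) ℚ

variable {A r}

/-- `M` is the matrix of the action of the endomorphism `X` of the rational homology of `A` (as a
derivation) on the space of tensors with the basis `B`. -/
def IsLieMatrix (B : Fin n → Tensors A r) (X : Module.End ℚ A.H1)
    (M : Matrix (Fin n) (Fin n) ℚ) : Prop :=
  ∀ a i v, ∑ k, B a i (Function.update v k (X (v k))) = ∑ b, M b a * B b i v

/-- The subspace with the basis `B` is the Betti realization of a direct factor `M` of the sum of the
motives `h^1(A) ^ {⊗ r i} (w i)`, and `P` is the matrix of the periods of `M` for the basis `B` and for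
some basis of the de Rham realization of `M` over `ℚ̄`. -/
structure IsMotive (B : Fin n → Tensors A r) (P : Matrix (Fin n) (Fin n) ℂ) : Prop where
  /-- `B` is a basis of a subspace -/
  basis : LinearIndependent ℚ B
  /-- the subspace is stable under `𝔤` -/
  lie : ∀ X, InLie A X → ∃ M : Matrix (Fin n) (Fin n) ℚ, IsLieMatrix B X M
  /-- the subspace is stable under the weights -/
  weight : ∃ M : Matrix (Fin n) (Fin n) ℚ, ∀ a i v,
    ((r i : ℚ) - 2 * w i) * B a i v = ∑ b, M b a * B b i v
  /-- the de Rham realization has a basis of elements with algebraic coefficients in terms of the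
  tensor products of the elements of the basis of `H^1_dR(A / ℚ̄)` -/
  deRham : ∃ c : Fin n → ∀ i : Fin s, (Fin (r i) → Fin g ⊕ Fin g) → ℂ,
    (∀ a i J, IsAlgebraic ℚ (c a i J)) ∧ ∀ a i (v : Fin (r i) → A.H1),
      ∑ J, c a i J * ∏ k, A.dR (J k) (v k) =
        (2 * Real.pi * Complex.I) ^ (w i) * ∑ b, P b a * (B b i v : ℂ)
  /-- the matrix of the periods is invertible -/
  det : P.det ≠ 0

/-! ### The Hodge structure -/

/-- `N` is the matrix of the action on `M` of the multiplication with `i` on `H_1(A, ℝ) = ℂ ^ g` (as a
derivation): the generator of the Lie algebra of the circle in the Hodge structure of `M`. -/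
def IsComplexStructure (B : Fin n → Tensors A r) (N : Matrix (Fin n) (Fin n) ℝ) : Prop :=
  ∀ a i (j : Fin (r i) → Fin (2 * g)),
    ∑ k, ∑ l : Fin (2 * g), A.lam.repr (Complex.I • A.lam (j k)) l *
        (B a i (Function.update (fun p => Pi.single (j p) 1) k (Pi.single l 1)) : ℝ) =
      ∑ b, N b a * (B b i (fun p => Pi.single (j p) 1) : ℝ)

/-- The Lie algebra of the Hodge group of `M`: the smallest rational Lie algebra whose real span
contains the complex structure `N`. -/
def hodgeLie (N : Matrix (Fin n) (Fin n) ℝ) : Submodule ℚ (Matrix (Fin n) (Fin n) ℚ) :=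
  sInf {L | (∀ x ∈ L, ∀ y ∈ L, x * y - y * x ∈ L) ∧
    N ∈ Submodule.span ℝ {M | ∃ x ∈ L, M = x.map fun q => (q : ℝ)}}

/-- The derived algebra. -/
def derived (L : Submodule ℚ (Matrix (Fin n) (Fin n) ℚ)) :
    Submodule ℚ (Matrix (Fin n) (Fin n) ℚ) :=
  Submodule.span ℚ {z | ∃ x ∈ L, ∃ y ∈ L, z = x * y - y * x}

/-- The centre of the Lie algebra acts trivially: an element of `𝔤` which acts on `M` like a central
element acts trivially. -/
def CentreActsTrivially (B : Fin n → Tensors A r) : Prop :=
  ∀ X, InLie A X → (∀ Y, InLie A Y → IsLieMatrix B (X * Y - Y * X) 0) → IsLieMatrix B X 0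

/-! ### Algebraic groups, torsors and the Mumford-Tate group -/

/-- A subgroup of `GL_R(ℂ)` defined by polynomials with rational coefficients. -/
def IsAlgebraicSubgroup {R : Type} [Fintype R] [DecidableEq R] (G : Subgroup (GL R ℂ)) : Prop :=
  ∃ I : Set (MvPolynomial (R × R) ℚ), ∀ x : GL R ℂ, x ∈ G ↔
    ∀ p ∈ I, MvPolynomial.aeval (fun b : R × R => (x : Matrix R R ℂ) b.1 b.2) p = 0

/-- The torsor `G · T⁻¹` of `G`: the matrices `F` such that `F T` is an element of `G`. It is
defined over `ℚ̄` if `T` is a matrix with algebraic entries. -/
def torsor (G : Subgroup (GL (Fin n) ℂ)) (T : Matrix (Fin n) (Fin n) ℂ) :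
    Set (Matrix (Fin n) (Fin n) ℂ) :=
  {F | ∃ x ∈ G, (x : Matrix (Fin n) (Fin n) ℂ) = F * T}

variable (A) in
/-- The Hodge structure of `H^1(A)`: the complex number `z` acts on `H_1(A, ℝ) = ℂ ^ g` by
multiplication, and on `H^1(A, ℝ)` by the transposed map, here in the basis of `H^1(A, ℚ)` which is
dual to the basis of the lattice. -/
def hodge (z : ℂ) : Matrix (Fin (2 * g)) (Fin (2 * g)) ℂ :=
  Matrix.of fun i j => ((A.lam.repr (z • A.lam i) j : ℝ) : ℂ)

/-- `R` is the matrix of the action of the complex number `z` on `M`, in the Hodge structure given by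
those of `H^1(A)` and of the Tate motives (`z` acts on `ℚ(1)` by `(z z̄)⁻¹`). -/
def IsHodgeMatrix (B : Fin n → Tensors A r) (z : ℂ) (R : Matrix (Fin n) (Fin n) ℂ) : Prop :=
  ∀ a i (j : Fin (r i) → Fin (2 * g)),
    ∑ j' : Fin (r i) → Fin (2 * g), (∏ k, hodge A z (j k) (j' k)) *
        (B a i (fun k => Pi.single (j' k) 1) : ℂ) =
      (z * (starRingEnd ℂ) z) ^ (w i) * ∑ b, R b a * (B b i (fun k => Pi.single (j k) 1) : ℂ)

/-- The Mumford-Tate group of `M`: the smallest algebraic group over `ℚ` which contains the image of
the Deligne torus. -/
def mumfordTate (B : Fin n → Tensors A r) : Subgroup (GL (Fin n) ℂ) :=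
  sInf {G | IsAlgebraicSubgroup G ∧ ∀ z : ℂ, z ≠ 0 → ∃ x ∈ G,
    IsHodgeMatrix w B z (x : Matrix (Fin n) (Fin n) ℂ)}

/-- **Theorem.** Let `A` be an abelian variety of dimension `p ^ 2` with multiplication by a division
algebra of prime degree `p` over an imaginary quadratic field, let `M` be a motive in the tensor category
generated by `h^1(A)` and the Tate motives, with the matrix `P` of periods, and let `G` be an algebraic
group over `ℚ` with a torsor over `ℚ̄` which contains `P`. Then:

1. for all elements `Z` of the derived algebra of the Lie algebra of the Hodge group of `M` and all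
   complex numbers `t` the matrix `exp (t Z)` is in `G`;
2. if the centre acts trivially on `M`, then the Mumford-Tate group of `M` is contained in `G`. -/
theorem result {g s n p : ℕ} (A : AbVar g) (hA : IsDivisionType A p) (r : Fin s → ℕ) (w : Fin s → ℤ)
    (B : Fin n → Tensors A r) (P : Matrix (Fin n) (Fin n) ℂ) (hM : IsMotive w B P)
    (N : Matrix (Fin n) (Fin n) ℝ) (hN : IsComplexStructure B N)
    (G : Subgroup (GL (Fin n) ℂ)) (hG : IsAlgebraicSubgroup G) (T : Matrix (Fin n) (Fin n) ℂ)
    (hT : ∀ i j, IsAlgebraic ℚ (T i j)) (hP : P ∈ torsor G T) :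
    (∀ Z ∈ derived (hodgeLie N), ∀ t : ℂ, ∃ x ∈ G,
      (x : Matrix (Fin n) (Fin n) ℂ) = NormedSpace.exp (t • Z.map fun q => (q : ℂ))) ∧
    (CentreActsTrivially B → mumfordTate w B ≤ G) := by
  have hE : endos A = A.EA := by
    refine le_antisymm (Submodule.span_le.2 fun P hP => A.mem_EA.2 hP) fun P hP => ?_
    exact Submodule.subset_span (A.mem_EA.1 hP)
  have hD : N144.DV.DivT A p :=
    { prime := hA.prime
      dim := hA.dim
      simple := fun P hP => hA.simple P (A.mem_EA.1 hP)
      rank := by rw [← hE]; exact hA.rank
      noncomm := by
        obtain ⟨P, Q, hP, hQ, h⟩ := hA.noncomm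
        exact ⟨P, A.mem_EA.2 hP, Q, A.mem_EA.2 hQ, h⟩
      cm := by
        obtain ⟨J, hJ, hJc, c, hc, h⟩ := hA.quadratic
        exact ⟨J, A.mem_EA.2 hJ, fun P hP => hJc P (A.mem_EA.1 hP), c, hc,
          LinearMap.ext fun v => h v⟩ }
  obtain ⟨hM', Wt, hW⟩ : N208.AM.Mot w B P ∧ ∃ Wt, N208.AM.WRel w B Wt := by
    have hwt : ∃ M, N208.AM.WRel w B M := by
      obtain ⟨M, h⟩ := hM.weight
      refine ⟨M, fun a i => MultilinearMap.ext fun v => ?_⟩
      rw [_root_.smul_apply, _root_.sum_apply, smul_eq_mul, h a i v]
      rfl
    refine ⟨⟨hM.basis, fun X hX => ?_, hwt, hM.det, hM.deRham⟩, hwt⟩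
    obtain ⟨M, h⟩ := hM.lie X hX
    refine ⟨M, fun a i => MultilinearMap.ext fun v => ?_⟩
    rw [N208.AM.dact_apply, _root_.sum_apply, h a i v]
    rfl
  have hrelL : ∀ X M, N208.AM.Rel B X M ↔ IsLieMatrix B X M := by
    intro X M
    constructor
    · intro h a i v
      have h1 := congrArg (fun φ : MultilinearMap ℚ (fun _ : Fin (r i) => A.H1) ℚ => φ v) (h a i)
      simp only [N208.AM.dact_apply, _root_.sum_apply, _root_.smul_apply, smul_eq_mul] at h1
      exact h1
    · intro h a i
      refine MultilinearMap.ext fun v => ?_
      rw [N208.AM.dact_apply, _root_.sum_apply, h a i v]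
      rfl
  have hb : ∀ j : Fin (2 * g), A.bas j = Pi.single j 1 := fun j => by
    unfold AbVar.bas
    rw [Pi.basisFun_apply]
  have hrel : ∀ z R, N208.AM.HRel w B z R → IsHodgeMatrix w B z R := by
    intro z R h a i j
    have h1 := h a i j
    simp only [hb] at h1
    exact h1
  have hNC : CentreActsTrivially B → N208.AM.NoCentre B := fun hc X hX h =>
    (hrelL X 0).2 (hc X hX fun Y hY => (hrelL _ 0).1 (h Y hY))
  -- the complex structure
  have hNR : N208.AM.RelR B AbVar.JJ N := by
    intro a i
    refine Basis.ext_multilinear (fun _ => A.lam) fun j => ?_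
    have h1 := hN a i j
    rw [N208.AM.dact_apply, _root_.sum_apply]
    have h2 : (fun p => A.lam (j p)) = fun p => A.per (Pi.single (j p) 1) := by
      funext p
      rw [← hb, A.per_bas]
    have h3 : ∀ b, (N b a • A.Phi (B b i)) (fun p => A.lam (j p)) =
        N b a * (B b i (fun p => Pi.single (j p) 1) : ℝ) := fun b => by
      rw [_root_.smul_apply, smul_eq_mul, h2, A.Phi_per]
    rw [Finset.sum_congr rfl fun b _ => h3 b, ← h1]
    refine Finset.sum_congr rfl fun k _ => ?_
    rw [AbVar.JJ_apply, ← A.lam.sum_repr (Complex.I • A.lam (j k)), MultilinearMap.map_update_sum]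
    simp only [A.lam.sum_repr]
    refine Finset.sum_congr rfl fun l _ => ?_
    rw [MultilinearMap.map_update_smul, smul_eq_mul]
    congr 1
    have h4 : A.lam l = A.per (Pi.single l 1) := by rw [← hb, A.per_bas]
    rw [h2, h4, N208.AM.update_per, A.Phi_per]
  -- the group
  have hdet : T.det ≠ 0 := by
    obtain ⟨x, -, hxT⟩ := hP
    intro h0
    have h1 : (x : Matrix (Fin n) (Fin n) ℂ).det = 0 := by
      rw [hxT, Matrix.det_mul, h0, mul_zero]
    exact (Matrix.GeneralLinearGroup.det x).ne_zero h1
  obtain ⟨T', h1, h2⟩ := Pool.Agent.R917.alg_inv hT hdet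
  obtain ⟨x, hx, hxT⟩ := hP
  have hH : N208.AM.PtM P _ := ⟨Pool.Agent.R917.algGrp_of hG, T, T', h1, h2, x, hx, hxT⟩
  have hs := N144.DV.der_of_div hD (N208.AM.qM_full hM' hW hH)
  refine ⟨fun Z hZ t => ?_, fun hA => ?_⟩
  · obtain ⟨L, hL1, hL2, hL3⟩ := N144.DV.gen_der hM' hW hH hNR hs
    have h3 : hodgeLie N ≤ L := sInf_le ⟨hL1, hL2⟩
    have h4 : derived (hodgeLie N) ≤
        N208.AM.LQ {M | ∃ x ∈ G, (x : Matrix (Fin n) (Fin n) ℂ) = M} := by
      unfold derived
      rw [Submodule.span_le]
      rintro _ ⟨x, hx, y, hy, rfl⟩
      exact hL3 x (h3 hx) y (h3 hy)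
    exact Pool.Agent.R917.exp_mem hH.grp fun d => (h4 hZ d).smul t
  · refine sInf_le ⟨hG, fun z hz => ?_⟩
    obtain ⟨⟨x, hx, hx'⟩, h4⟩ := N144.DV.gen_B hM' hW hH (hNC hA) hNR hs hz
    refine ⟨x, hx, ?_⟩
    rw [hx']
    exact hrel _ _ h4

end Pool.Agent.Results.MP_caab05_ag.DivisionAlgebraPeriods
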