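import Pool.Agent.N207.HG.Fin

/-!
# Periods of self-dual hypergeometric motives: for almost all fibres all relations of growing degree and size come from
the symplectic and orthogonal torsors

For real polynomials `P`, `Q`, monic of degree `n`, the hypergeometric equation `P(θ) f = z Q(θ) f`, `θ = z d/dz`, is the
Picard-Fuchs equation of a family of motives of rank `n` over the `z`-line if the roots of `P` and `Q` are rational. We
treat the self-dual equations of all ranks, symplectic and orthogonal, whose exponents at `0` lie in `(-1/2, 1/2)`.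
-/

set_option autoImplicit false

open Matrix Polynomial Filter NumberField

namespace Pool.Agent.Results.MP_caab05_ag.HypergeometricMotives

/-! ### The equations -/

/-- the slit unit disc -/
def Disc : Set ℂ := {z | ‖z‖ < 1 ∧ z ∈ Complex.slitPlane}

/-- the operator `θ = z d/dz` -/
noncomputable def theta (f : ℂ → ℂ) : ℂ → ℂ := fun z => z * deriv f z

/-- `f` is a solution of the equation `P(θ) f = z Q(θ) f` on the slit unit disc -/
def IsSolution (P Q : ℝ[X]) (f : ℂ → ℂ) : Prop := AnalyticOnNhd ℂ f Disc ∧ ∀ z ∈ Disc,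
  P.sum (fun l a => (a : ℂ) * (theta^[l] f) z) = z * Q.sum (fun l a => (a : ℂ) * (theta^[l] f) z)

/-- the functions are linearly independent on the slit disc -/
def Independent {n : ℕ} (f : Fin n → ℂ → ℂ) : Prop :=
  ∀ c : Fin n → ℂ, (∀ z ∈ Disc, ∑ j, c j * f j z = 0) → c = 0

/-- the matrix of the functions `θ^i f_j` -/
noncomputable def wronski {n : ℕ} (f : Fin n → ℂ → ℂ) (z : ℂ) : Matrix (Fin n) (Fin n) ℂ :=
  Matrix.of fun i j => (theta^[i] (f j)) z

/-- **Self-dual hypergeometric equations** `P(θ) f = z Q(θ) f` of rank `n`: orthogonal for `s = 1`, where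
`Q = (x + 1/2) w`, symplectic for `s = -1`, where `Q = P + w`. The polynomials `P` and `Q` are monic of degree `n`, `w`
has smaller degree, `P(-x) = (-1)^n P(x)`, `w(-x) = -s (-1)^n w(x)`, the complex roots of `P` are real and lie in
`(-1/2, 1/2)`, and `Q(x + k) ≠ 0` for the roots `x` of `P` and the natural numbers `k`. -/
structure SelfDual (n : ℕ) (P w Q : ℝ[X]) (s : ℝ) : Prop where
  pos : 0 < n
  monicP : P.Monic
  degP : P.natDegree = n
  monicQ : Q.Monic
  degQ : Q.natDegree = n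
  degw : w.natDegree < n
  parP : P.comp (-X) = (-1) ^ n * P
  parw : w.comp (-X) = C (-s) * (-1) ^ n * w
  type : (s = 1 ∧ Q = (X + C (1 / 2)) * w) ∨ (s = -1 ∧ Q = P + w)
  roots : ∀ x : ℂ, aeval x P = 0 → ∃ y : ℝ, x = y ∧ |y| < 1 / 2
  irr : ∀ x : ℝ, P.eval x = 0 → ∀ k : ℕ, Q.eval (x + k) ≠ 0

open Classical in
/-- the number of roots of `P` congruent to `x` modulo the integers, with multiplicities -/
noncomputable def mult (P : ℝ[X]) (x : ℂ) : ℕ :=
  (P.map (algebraMap ℝ ℂ)).roots.countP fun r => ∃ m : ℤ, r = x + m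

/-- congruent roots are equal -/
def Nonresonant (Q : ℝ[X]) : Prop := ∀ x y : ℂ, aeval x Q = 0 → aeval y Q = 0 → ∀ k : ℤ, y = x + k → y = x

/-- The equation is not Kummer induced: for every `d ≥ 2` the exponents at `0` or those at infinity (assumed
nonresonant) are not invariant modulo the integers, with multiplicities, under the shift by `1 / d`. -/
def NotKummer (P Q : ℝ[X]) : Prop := ∀ d : ℕ, 2 ≤ d →
  (∃ x : ℂ, mult P x ≠ mult P (x + 1 / d)) ∨ (Nonresonant Q ∧ ∃ x : ℂ, mult Q x ≠ mult Q (x + 1 / d))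

/-- `g` is the local monodromy of `Y` around `0` -/
def Local0 {n : ℕ} (Y : ℂ → Matrix (Fin n) (Fin n) ℂ) (g : Matrix (Fin n) (Fin n) ℂ) : Prop :=
  ∃ F : ℂ → Matrix (Fin n) (Fin n) ℂ,
    (∀ a b, AnalyticOnNhd ℂ (fun z => F z a b) {z | ‖z‖ < 1 ∧ -z ∈ Complex.slitPlane}) ∧
    (∀ z : ℂ, ‖z‖ < 1 → 0 < z.im → F z = Y z) ∧ ∀ z : ℂ, ‖z‖ < 1 → z.im < 0 → F z = Y z * g

/-- `g` is the local monodromy of `Y` around `1` -/
def Local1 {n : ℕ} (Y : ℂ → Matrix (Fin n) (Fin n) ℂ) (g : Matrix (Fin n) (Fin n) ℂ) : Prop :=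
  ∃ F : ℂ → Matrix (Fin n) (Fin n) ℂ,
    (∀ a b, AnalyticOnNhd ℂ (fun z => F z a b) {z | ‖1 - z‖ < 1 ∧ z - 1 ∈ Complex.slitPlane}) ∧
    (∀ z : ℂ, ‖z‖ < 1 → ‖1 - z‖ < 1 → z.im < 0 → F z = Y z) ∧
    ∀ z : ℂ, ‖z‖ < 1 → ‖1 - z‖ < 1 → 0 < z.im → F z = Y z * g

/-- `y` is congruent modulo the integers to a root of `P` -/
def RootMod (P : ℝ[X]) (y : ℝ) : Prop := ∃ m : ℤ, P.eval (y + m) = 0

/-- Conditions for orthogonal equations which imply that the monodromy is infinite: `P` has a multiple root; or its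
roots are rational and either the local monodromies around `0` and `1` generate an infinite monoid, or `Q` is
nonresonant and has a multiple root, or `Q` is nonresonant and some interval between two exponents at infinity contains
no exponent at `0`, modulo the integers. -/
def InfiniteMonodromy (n : ℕ) (P Q : ℝ[X]) (Y : ℂ → Matrix (Fin n) (Fin n) ℂ) : Prop :=
  (∃ l : ℝ, P.eval l = 0 ∧ (derivative P).eval l = 0) ∨
  ((∀ l : ℝ, P.eval l = 0 → ∃ q : ℚ, l = q) ∧
    ((∀ g0 g1 : Matrix (Fin n) (Fin n) ℂ, Local0 Y g0 → Local1 Y g1 →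
        (Submonoid.closure {g1, g0} : Set (Matrix (Fin n) (Fin n) ℂ)).Infinite) ∨
      (Nonresonant Q ∧ ((∃ l : ℝ, Q.eval l = 0 ∧ (derivative Q).eval l = 0) ∨
        ∃ y1 y2 : ℝ, y1 < y2 ∧ RootMod Q y1 ∧ RootMod Q y2 ∧ ∀ t : ℝ, y1 ≤ t → t ≤ y2 → ¬ RootMod P t))))

/-! ### The forms -/

/-- the matrix of the coefficients of the polynomial `(w(x) P(y) + s P(x) w(y)) / (x + y)` -/
noncomputable def form0 (n : ℕ) (P w : ℝ[X]) (s : ℝ) : Matrix (Fin n) (Fin n) ℂ := Matrix.of fun i j =>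
  ((∑ l ∈ Finset.range ((i : ℕ) + 1), (-1) ^ l * (w.coeff ((i : ℕ) - l) * P.coeff ((j : ℕ) + 1 + l) +
    s * P.coeff ((i : ℕ) - l) * w.coeff ((j : ℕ) + 1 + l)) : ℝ) : ℂ)

/-- the form `form0 - z w wᵀ` in the orthogonal case, `form0` in the symplectic case -/
noncomputable def form (n : ℕ) (P w : ℝ[X]) (s : ℝ) (z : ℂ) : Matrix (Fin n) (Fin n) ℂ :=
  Matrix.of fun a b => form0 n P w s a b - (((1 + s) / 2 * (w.coeff a * w.coeff b) : ℝ) : ℂ) * z

/-! ### Analytic continuation -/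

/-- the tuples of points of the slit disc -/
def Region (κ : Type) : Set (κ → ℂ) := {x | ∀ i, x i ∈ Disc}

/-- the tuples of the matrices of the equations at independent points -/
noncomputable def family {κ : Type} {n : κ → ℕ} (f : (j : κ) → Fin (n j) → ℂ → ℂ) (x : κ → ℂ) :
    (j : κ) → Matrix (Fin (n j)) (Fin (n j)) ℂ := fun j => wronski (f j) (x j)

/-- `F` on `V` is obtained from `Y` on `U` by analytic continuation along a chain of connected sets -/
inductive Continuation {κ : Type} [Fintype κ] {n : κ → ℕ} (U : Set (κ → ℂ))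
    (Y : (κ → ℂ) → (j : κ) → Matrix (Fin (n j)) (Fin (n j)) ℂ) :
    Set (κ → ℂ) → ((κ → ℂ) → (j : κ) → Matrix (Fin (n j)) (Fin (n j)) ℂ) → Prop
  | base : Continuation U Y U Y
  | step {V V' W : Set (κ → ℂ)} {F F' : (κ → ℂ) → (j : κ) → Matrix (Fin (n j)) (Fin (n j)) ℂ} :
      Continuation U Y V F → IsPreconnected V' → (∀ j a b, AnalyticOnNhd ℂ (fun x => F' x j a b) V') → IsOpen W →
      W.Nonempty → W ⊆ V → W ⊆ V' → (∀ x ∈ W, F' x = F x) → Continuation U Y V' F'

/-- some analytic continuation of `Y` on `U` is `Y g` on a nonempty open subset of `U` -/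
def Monodromy {κ : Type} [Fintype κ] {n : κ → ℕ} (U : Set (κ → ℂ))
    (Y : (κ → ℂ) → (j : κ) → Matrix (Fin (n j)) (Fin (n j)) ℂ) (g : (j : κ) → Matrix (Fin (n j)) (Fin (n j)) ℂ) :
    Prop :=
  ∃ (V W : Set (κ → ℂ)) (F : (κ → ℂ) → (j : κ) → Matrix (Fin (n j)) (Fin (n j)) ℂ), Continuation U Y V F ∧
    IsOpen W ∧ W.Nonempty ∧ W ⊆ V ∧ W ⊆ U ∧ ∀ x ∈ W, F x = Y x * g

/-- the value of a polynomial at the entries of a tuple of matrices -/
noncomputable def val {κ : Type} {n : κ → ℕ} (R : MvPolynomial (Σ j : κ, Fin (n j) × Fin (n j)) ℂ)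
    (A : (j : κ) → Matrix (Fin (n j)) (Fin (n j)) ℂ) : ℂ :=
  MvPolynomial.eval (fun i : Σ j : κ, Fin (n j) × Fin (n j) => A i.1 i.2.1 i.2.2) R

/-! ### Exceptional points -/

/-- `x` is a quotient of two integers of `K` all of whose conjugates are at most `T` in absolute value -/
def Height (K : Type) [Field K] [NumberField K] (T : ℝ) (x : K) : Prop :=
  ∃ a b : 𝓞 K, b ≠ 0 ∧ house (a : K) ≤ T ∧ house (b : K) ≤ T ∧ x = a / b

/-- the points of norm at most `k` at distance at least `1 / k` from the complement of `V` -/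
def Inner {κ : Type} [Fintype κ] (V : Set (κ → ℂ)) (k : ℕ) : Set (κ → ℂ) := {z | ‖z‖ ≤ k ∧ Metric.ball z (k : ℝ)⁻¹ ⊆ V}

/-- `S` is covered by `m` hypersurfaces of degree at most `D` -/
def Covered {κ : Type} (D m : ℕ) (S : Set (κ → ℂ)) : Prop :=
  ∃ Φ : Finset (MvPolynomial κ ℂ), Φ.card ≤ m ∧ (∀ R ∈ Φ, R ≠ 0 ∧ R.totalDegree ≤ D) ∧
    ∀ x ∈ S, ∃ R ∈ Φ, MvPolynomial.eval x R = 0

/-- **The exceptional points**: `t` in `K ^ κ`, of height at most `T`, in the compact set `Inner V k`, such that some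
polynomial `R` of partial degrees at most `k`, whose coefficients are combinations `∑ ξ i * c i` with integers `c i` of
`K` all of whose conjugates are at most `T ^ k`, vanishes at the tuple `F(t)` but not at all tuples of matrices `A` with
`(A j)ᵀ * form_j(t_j) * A j = J j` and `det (A j) = det (F(t) j)` -/
def Exceptional {κ : Type} [Fintype κ] {n : κ → ℕ} (P w : κ → ℝ[X]) (s : κ → ℝ)
    (J : (j : κ) → Matrix (Fin (n j)) (Fin (n j)) ℂ) (V : Set (κ → ℂ))
    (F : (κ → ℂ) → (j : κ) → Matrix (Fin (n j)) (Fin (n j)) ℂ) (K : Type) [Field K] [NumberField K] (io : K →+* ℂ)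
    (k : ℕ) (ξ : Fin k → ℂ) (T : ℝ) : Set (κ → K) :=
  {t | (∀ j, Height K T (t j)) ∧ (fun j => io (t j)) ∈ Inner V k ∧
    ∃ R : MvPolynomial (Σ j : κ, Fin (n j) × Fin (n j)) ℂ, (∀ y, R.degreeOf y ≤ k) ∧
    (∀ m, ∃ c : Fin k → 𝓞 K, (∀ i (φ : K →+* ℂ), ‖φ (c i : K)‖ ≤ T ^ (k : ℝ)) ∧
      R.coeff m = ∑ i, ξ i * io (c i : K)) ∧
    val R (F fun j => io (t j)) = 0 ∧
    ∃ A : (j : κ) → Matrix (Fin (n j)) (Fin (n j)) ℂ,
      (∀ j, (A j)ᵀ * form (n j) (P j) (w j) (s j) (io (t j)) * A j = J j ∧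
        (A j).det = (F (fun j => io (t j)) j).det) ∧ val R A ≠ 0}

/-! ### Comparison with the library -/

theorem selfDual_dat {n : ℕ} {P w Q : ℝ[X]} {s : ℝ} : SelfDual n P w Q s ↔ N207.HG.Dat n P w Q s :=
  ⟨fun h => ⟨h.1, h.2, h.3, h.4, h.5, h.6, h.7, h.8, h.9, h.10, h.11⟩,
    fun h => ⟨h.1, h.2, h.3, h.4, h.5, h.6, h.7, h.8, h.9, h.10, h.11⟩⟩

theorem form_eq (n : ℕ) (P w : ℝ[X]) (s : ℝ) (z : ℂ) : form n P w s z = N207.HG.Jz n P w s z := by
  ext a b
  unfold form N207.HG.Jz N207.HG.cf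
  simp only [Matrix.sub_apply, Matrix.of_apply, Matrix.smul_apply, smul_eq_mul, vecMulVec_apply]
  push_cast
  have : form0 n P w s a b = N207.HG.cK n P w s a b := rfl
  rw [this]
  ring

theorem cnt_iff {κ : Type} [Fintype κ] {n : κ → ℕ} {U V : Set (κ → ℂ)}
    {Y F : (κ → ℂ) → (j : κ) → Matrix (Fin (n j)) (Fin (n j)) ℂ} : Continuation U Y V F ↔ Y119.PLM.Cnt U Y V F := by
  constructor
  · intro h
    induction h with
    | base => exact Y119.PLM.Cnt.base
    | step _ h1 h2 h3 h4 h5 h6 h7 ih => exact Y119.PLM.Cnt.step ih h1 h2 h3 h4 h5 h6 h7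
  · intro h
    induction h with
    | base => exact Continuation.base
    | step _ h1 h2 h3 h4 h5 h6 h7 ih => exact Continuation.step ih h1 h2 h3 h4 h5 h6 h7

theorem mon_iff {κ : Type} [Fintype κ] {n : κ → ℕ} {U : Set (κ → ℂ)}
    {Y : (κ → ℂ) → (j : κ) → Matrix (Fin (n j)) (Fin (n j)) ℂ} {g : (j : κ) → Matrix (Fin (n j)) (Fin (n j)) ℂ} :
    Monodromy U Y g ↔ Y119.PLM.IsMon U Y g := by
  unfold Monodromy Y119.PLM.IsMon
  simp only [cnt_iff]

theorem exc_eq {κ : Type} [Fintype κ] [DecidableEq κ] {n : κ → ℕ} (P w : κ → ℝ[X]) (s : κ → ℝ)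
    (J : (j : κ) → Matrix (Fin (n j)) (Fin (n j)) ℂ) (V : Set (κ → ℂ))
    (F : (κ → ℂ) → (j : κ) → Matrix (Fin (n j)) (Fin (n j)) ℂ) (K : Type) [Field K] [NumberField K] (io : K →+* ℂ)
    (k : ℕ) (ξ : Fin k → ℂ) (T : ℝ) : Exceptional P w s J V F K io k ξ T =
      Y985.OR.ExcE J (N207.HG.JP P w s) V F K io k ξ T := by
  unfold Exceptional Y985.OR.ExcE
  simp only [N207.HG.JP_eval, ← form_eq]
  rfl

/-- Every self-dual hypergeometric equation has a basis of solutions on the slit disc. -/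
theorem exists_basis (n : ℕ) (P w Q : ℝ[X]) (s : ℝ) (h : SelfDual n P w Q s) :
    ∃ f : Fin n → ℂ → ℂ, (∀ i, IsSolution P Q (f i)) ∧ Independent f :=
  (selfDual_dat.1 h).exists_sol N207.HG.allHG

/-- Examples: for real numbers `β_1, …, β_m`, `m ≥ 1`, which are not integers, and `q = ∏_j (x^2 - β_j^2)` the equations
`θ^(2m) f = z q(θ) f` and `θ^(2m+1) f = z (θ + 1/2) q(θ) f` satisfy the hypotheses of the theorem. -/
theorem examples (m : ℕ) (β : Fin m → ℝ) (hm : 0 < m) (hβ : ∀ j (a : ℤ), β j ≠ a) (q : ℝ[X])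
    (hq : q = ∏ j, (X ^ 2 - C (β j ^ 2))) :
    SelfDual (2 * m) (X ^ (2 * m)) (q - X ^ (2 * m)) q (-1) ∧ NotKummer (X ^ (2 * m)) q ∧
      SelfDual (2 * m + 1) (X ^ (2 * m + 1)) q ((X + C (1 / 2)) * q) 1 ∧
      NotKummer (X ^ (2 * m + 1)) ((X + C (1 / 2)) * q) ∧
      ∀ Y, InfiniteMonodromy (2 * m + 1) (X ^ (2 * m + 1)) ((X + C (1 / 2)) * q) Y := by
  rw [hq]
  exact ⟨selfDual_dat.2 (N207.HG.Dat_symp hm hβ), N207.HG.Rot_X _ (by omega) _,
    selfDual_dat.2 (N207.HG.Dat_orth hm hβ), N207.HG.Rot_X _ (by omega) _, fun Y => N207.HG.inf_orth hm _ Y⟩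

/-- **Periods of self-dual hypergeometric motives.** Let `P_j(θ) f = z Q_j(θ) f`, `j` in a finite nonempty set `κ`, be
self-dual hypergeometric equations of ranks `n_j` which are not Kummer induced, and have infinite monodromy in the sense
above if they are orthogonal. Let `f_{j,i}`, `i < n_j`, be a basis of the solutions of the equation `j`, and let `F` on
`V` be any analytic continuation of the tuple of the matrices `(θ^a f_{j,b}) (x_j)`, with independent variables `x_j`.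

Then there are invertible matrices `J_j`, symmetric for `s_j = 1` and alternating for `s_j = -1`, with
`F_jᵀ * form_j(x_j) * F_j = J_j` on `V`; polynomials which vanish on the monodromy of `F` vanish on the product of the
orthogonal and symplectic groups of the forms `J_j`; and there is `ω → ∞` such that for all large `T`, all number fields
`K` of degree at most `ω T`, all embeddings and all complex numbers `ξ i`, `i < ω T`, the exceptional points lie on at
most `T ^ (1 / ω T)` hypersurfaces of degree at most `T ^ (1 / ω T)`, and there are at most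
`T ^ (1 / ω T) * N ^ (|κ| - 1)` of them, `N` being the number of elements of `K` of height at most `T`. -/
theorem result (κ : Type) [Fintype κ] [DecidableEq κ] [Nonempty κ] (n : κ → ℕ) (P w Q : κ → ℝ[X]) (s : κ → ℝ)
    (h : ∀ j, SelfDual (n j) (P j) (w j) (Q j) (s j)) (hr : ∀ j, NotKummer (P j) (Q j))
    (f : (j : κ) → Fin (n j) → ℂ → ℂ) (hf : ∀ j i, IsSolution (P j) (Q j) (f j i)) (hl : ∀ j, Independent (f j))
    (hinf : ∀ j, s j = 1 → InfiniteMonodromy (n j) (P j) (Q j) (wronski (f j))) (V : Set (κ → ℂ))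
    (F : (κ → ℂ) → (j : κ) → Matrix (Fin (n j)) (Fin (n j)) ℂ) (hc : Continuation (Region κ) (family f) V F)
    (hV : IsOpen V) (hne : V.Nonempty) :
    ∃ J : (j : κ) → Matrix (Fin (n j)) (Fin (n j)) ℂ, (∀ j, (J j)ᵀ = (s j : ℂ) • J j ∧ (J j).det ≠ 0) ∧
      (∀ x ∈ V, ∀ j, (F x j)ᵀ * form (n j) (P j) (w j) (s j) (x j) * F x j = J j) ∧
      (∀ R, (∀ g, Monodromy V F g → val R g = 0) → ∀ g, (∀ j, (g j)ᵀ * J j * g j = J j) → val R g = 0) ∧
      ∃ (ω : ℝ → ℕ) (T₀ : ℝ), Tendsto ω atTop atTop ∧ Monotone ω ∧ ∀ T, T₀ ≤ T → 0 < ω T ∧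
        ∀ (K : Type) [Field K] [NumberField K], Module.finrank ℚ K ≤ ω T → ∀ (io : K →+* ℂ) (ξ : Fin (ω T) → ℂ),
          Covered ⌊T ^ ((ω T : ℝ)⁻¹)⌋₊ ⌊T ^ ((ω T : ℝ)⁻¹)⌋₊
            ((fun (t : κ → K) i => io (t i)) '' Exceptional P w s J V F K io (ω T) ξ T) ∧
          (Exceptional P w s J V F K io (ω T) ξ T).Finite ∧
          ((Exceptional P w s J V F K io (ω T) ξ T).ncard : ℝ) ≤
            T ^ ((ω T : ℝ)⁻¹) * ({x : K | Height K T x}.ncard : ℝ) ^ (Fintype.card κ - 1) := by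
  have h' := fun j => selfDual_dat.1 (h j)
  obtain ⟨J, h1, -, h2, h3, ω, T₀, h4, h5, h6⟩ := N207.HG.main N207.HG.allHG h' hr
    (Y := fun j => wronski (f j)) (fun j z hz => N207.HG.Ym_ode (h' j) (hf j) hz)
    (fun j => N207.HG.Ym_det N207.HG.allHG (h' j) (hf j) (hl j)) hinf (cnt_iff.1 hc) hV hne
  refine ⟨J, h1, fun x hx j => ?_, fun R hR g hg => h3 R (fun g hg => hR g (mon_iff.2 hg)) g hg, ω, T₀, h4, h5,
    fun T hT => ⟨(h6 T hT).1, fun K _ _ hK io ξ => ?_⟩⟩
  · rw [form_eq]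
    exact h2 x hx j
  · rw [exc_eq]
    exact (h6 T hT).2 K hK io ξ

end Pool.Agent.Results.MP_caab05_ag.HypergeometricMotives
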